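import Pool.Agent.H60.CM.Targets

/-!
# A Killing function with a strict sign somewhere on the half circle
-/

set_option autoImplicit false

open Set Function MeasureTheory Filter Topology
open scoped Manifold ContDiff Matrix

namespace Pool.Agent.H11.CM

open Pool.Agent.H60.CM

/-- the reflection preserves the boundary -/
lemma tau_bd (Y : Sy) {p : Y.S} (hp : p ∈ Y.bd) : Y.τ p ∈ Y.bd := by
  have h1 := Diffeomorph.preimage_boundary (n := ∞) (by simp) Y.τ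
  have h2 : p ∈ Y.τ ⁻¹' ((𝓡∂ 2).boundary Y.S) := by
    rw [h1]
    exact hp
  exact h2

/-- the boundary of the half lies over the half circle -/
lemma x1_pos (Y : Sy) {p : Y.S} (hA : p ∈ Y.A) (hp : p ∈ Y.bd) : 0 < Y.x p 1 := by
  rcases lt_trichotomy (Y.x p 1) 0 with h | h | h
  · exfalso
    have h1 : Y.τ p ∈ Y.A := by
      refine Y.pos _ (tau_bd Y hp) ?_
      rw [Y.mirr]
      change 0 < -Y.x p 1
      linarith
    exact (Set.disjoint_left.1 Y.half.disj) hA h1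
  · exfalso
    have h1 : Y.x (Y.τ p) = Y.x p := by
      rw [Y.mirr]
      ext i
      fin_cases i
      · rfl
      · change -Y.x p 1 = Y.x p 1
        rw [h, neg_zero]
      · rfl
    have h2 : Y.τ p = p := Y.cmc.circle.injOn (tau_bd Y hp) hp h1
    exact (Y.half.cover p).2 (Or.inl hA) h2
  · exact h

/-- the odd Killing functions on the boundary -/
lemma oddk_bd (h1 : T_BNZ) (Y : Sy) (c1 c2 : ℝ) {p : Y.S} (hp : p ∈ Y.bd) :
    Y.r ^ 2 * oddk Y 0 c1 c2 p =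
      Y.x p 1 * (c1 * (Y.N p ⬝ᵥ Y.x p) + c2 * (Y.r ^ 2 * Y.N p 2)) := by
  obtain ⟨-, -, h3, -⟩ := h1 Y.toDat p hp
  have h4 : Y.x p 2 = 0 := (Y.cmc.circle.mapsTo hp).1
  have h5 : oddk Y 0 c1 c2 p = (c1 - c2 * Y.x p 2) * Y.N p 1 + c2 * Y.x p 1 * Y.N p 2 := by
    unfold oddk kf
    rw [cross_apply]
    simp [dotProduct, Fin.sum_univ_three]
    left
    ring
  rw [h5, h4]
  linear_combination c1 * h3

theorem pf_BSG (h1 : T_BNZ) (h2 : T_BPC) : T_BSG := by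
  intro Y P Q hPQ hpos
  have hr : 0 < Y.r := Y.cmc.r_pos
  have hr2 : 0 < Y.r ^ 2 := by positivity
  by_cases hc : ∃ p ∈ Y.bd, 0 < Y.x p 1 ∧ 0 < P * (Y.N p ⬝ᵥ Y.x p) + Q * Y.N p 2
  · obtain ⟨p0, hp0, hx0, hs0⟩ := hc
    have key : ∀ p ∈ Y.bd, oddk Y 0 (-(Y.r ^ 2 * P)) (-Q) p =
        -(Y.x p 1 * (P * (Y.N p ⬝ᵥ Y.x p) + Q * Y.N p 2)) := by
      intro p hp
      have h3 := oddk_bd h1 Y (-(Y.r ^ 2 * P)) (-Q) hp
      apply mul_left_cancel₀ hr2.ne'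
      rw [h3]
      ring
    refine ⟨-(Y.r ^ 2 * P), -Q, fun p hp => ?_, p0, ⟨Y.pos p0 hp0 hx0, hp0⟩, ?_⟩
    · rw [key p hp.2, neg_nonpos]
      exact mul_nonneg (x1_pos Y hp.1 hp.2).le (hpos p hp.2)
    · rw [key p0 hp0, neg_lt_zero]
      exact mul_pos hx0 hs0
  · push Not at hc
    obtain ⟨D, hD⟩ : ∃ D : Y.S → ℝ, D = fun p => -Q * (Y.N p ⬝ᵥ Y.x p) / Y.r +
      P * Y.r * Y.N p 2 := ⟨_, rfl⟩
    have hDc : Continuous D := by
      have hx : Continuous Y.x := Y.cmc.x_smooth.continuous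
      have hN : Continuous Y.N := Y.cmc.N_smooth.continuous
      have hS : Continuous fun p => Y.N p ⬝ᵥ Y.x p := hN.dotProduct hx
      have hN2 : Continuous fun p => Y.N p 2 := (continuous_apply 2).comp hN
      rw [hD]
      exact ((continuous_const.mul hS).div_const _).add (continuous_const.mul hN2)
    have hDne : ∀ p ∈ {p | p ∈ Y.bd ∧ 0 < Y.x p 1}, D p ≠ 0 := by
      rintro p ⟨hp, hx⟩ h0
      have h3 : P * (Y.N p ⬝ᵥ Y.x p) + Q * Y.N p 2 = 0 := le_antisymm (hc p hp hx) (hpos p hp)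
      obtain ⟨-, -, -, h4⟩ := h1 Y.toDat p hp
      have h5 : (D p) ^ 2 + (P * (Y.N p ⬝ᵥ Y.x p) + Q * Y.N p 2) ^ 2 = P ^ 2 * Y.r ^ 2 + Q ^ 2 := by
        have h6 : (D p) ^ 2 + (P * (Y.N p ⬝ᵥ Y.x p) + Q * Y.N p 2) ^ 2 =
            (P ^ 2 * Y.r ^ 2 + Q ^ 2) * ((Y.N p ⬝ᵥ Y.x p) ^ 2 / Y.r ^ 2 + Y.N p 2 ^ 2) := by
          rw [hD]
          field_simp
          ring
        rw [h6, h4, mul_one]
      rw [h0, h3] at h5
      rcases hPQ with h | h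
      · have : 0 < P ^ 2 * Y.r ^ 2 := by positivity
        nlinarith [sq_nonneg Q]
      · have : 0 < Q ^ 2 := by positivity
        nlinarith [mul_nonneg (sq_nonneg P) hr2.le]
    obtain ⟨p0, hp0, hx0⟩ : ∃ p0 ∈ Y.bd, 0 < Y.x p0 1 := by
      have h3 : (![0, Y.r, 0] : V3) ∈ circ Y.r := by
        refine ⟨rfl, ?_⟩
        simp [dotProduct, Fin.sum_univ_three]
        ring
      obtain ⟨p, hp, hxp⟩ := Y.cmc.circle.surjOn h3
      refine ⟨p, hp, ?_⟩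
      rw [hxp]
      exact hr
    have hpre : IsPreconnected {p | p ∈ Y.bd ∧ 0 < Y.x p 1} := (h2 Y.toDat).2.2.2
    obtain ⟨s, hs⟩ : ∃ s : ℝ, ∀ p ∈ {p | p ∈ Y.bd ∧ 0 < Y.x p 1}, 0 < s * D p := by
      rcases lt_or_gt_of_ne (hDne p0 ⟨hp0, hx0⟩) with h | h
      · refine ⟨-1, fun p hp => ?_⟩
        by_contra hcon
        have h4 : 0 ≤ D p := by linarith
        obtain ⟨z, hz, hz0⟩ := hpre.intermediate_value (a := p0) (b := p) ⟨hp0, hx0⟩ hp
          hDc.continuousOn (⟨h.le, h4⟩ : (0 : ℝ) ∈ Icc (D p0) (D p))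
        exact hDne z hz hz0
      · refine ⟨1, fun p hp => ?_⟩
        by_contra hcon
        have h4 : D p ≤ 0 := by linarith
        obtain ⟨z, hz, hz0⟩ := hpre.intermediate_value (a := p) (b := p0) hp ⟨hp0, hx0⟩
          hDc.continuousOn (⟨h4, h.le⟩ : (0 : ℝ) ∈ Icc (D p) (D p0))
        exact hDne z hz hz0
    have key : ∀ p ∈ Y.bd, oddk Y 0 (s * Q * Y.r) (-(s * P * Y.r)) p = -(Y.x p 1 * (s * D p)) := by
      intro p hp
      have h3 := oddk_bd h1 Y (s * Q * Y.r) (-(s * P * Y.r)) hp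
      apply mul_left_cancel₀ hr2.ne'
      rw [h3, hD]
      field_simp
      ring
    have hneg : ∀ p ∈ Y.bd, 0 < Y.x p 1 → oddk Y 0 (s * Q * Y.r) (-(s * P * Y.r)) p < 0 := by
      intro p hp hx
      rw [key p hp, neg_lt_zero]
      exact mul_pos hx (hs p ⟨hp, hx⟩)
    exact ⟨s * Q * Y.r, -(s * P * Y.r), fun p hp => (hneg p hp.2 (x1_pos Y hp.1 hp.2)).le, p0,
      ⟨Y.pos p0 hp0 hx0, hp0⟩, hneg p0 hp0 hx0⟩

end Pool.Agent.H11.CM
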