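import Pool.Agent.H60.CM.Targets

/-!
# Derivatives in a parametrization
-/

set_option autoImplicit false

open Set Function MeasureTheory Filter Topology
open scoped Manifold ContDiff Matrix

namespace Pool.Agent.H11.CM

open Pool.Agent.H60.CM

/-- a vector of the plane in coordinates -/
lemma vec2 (v : E2) : v = v 0 • ee 0 + v 1 • ee 1 := by
  ext i
  fin_cases i <;> simp [ee]

/-- the cross product of two combinations -/
lemma cross_comb (a b : V3) (m00 m01 m10 m11 : ℝ) :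
    (m00 • a + m01 • b) ⨯₃ (m10 • a + m11 • b) = (m00 * m11 - m01 * m10) • (a ⨯₃ b) := by
  rw [cross_apply, cross_apply]
  ext i
  fin_cases i <;>
  · simp
    ring

theorem pf_PDF : T_PDF := by
  intro D O ψ hP y hy
  have hψ : MDifferentiableAt 𝓘(ℝ, E2) (𝓡∂ 2) ψ y :=
    (hP.smooth.contMDiffAt (hP.isOpen.mem_nhds hy)).mdifferentiableAt (by simp)
  obtain ⟨L, hL⟩ : ∃ L : E2 →L[ℝ] E2, L = mfderiv 𝓘(ℝ, E2) (𝓡∂ 2) ψ y := ⟨_, rfl⟩
  have key : ∀ (F : Type) [NormedAddCommGroup F] [NormedSpace ℝ F] (f : D.S → F), D.Sm f →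
      ∀ i : Fin 2, pd (f ∘ ψ) y i = (L (ee i)) 0 • dd f (ψ y) 0 + (L (ee i)) 1 • dd f (ψ y) 1 := by
    intro F _ _ f hf i
    have hf' : MDifferentiableAt (𝓡∂ 2) 𝓘(ℝ, F) f (ψ y) :=
      ContMDiffAt.mdifferentiableAt (n := ∞) (hf (ψ y)) (by simp)
    have h1 : fderiv ℝ (f ∘ ψ) y (ee i) = mfderiv (𝓡∂ 2) 𝓘(ℝ, F) f (ψ y) (L (ee i)) := by
      rw [← mfderiv_eq_fderiv, mfderiv_comp y hf' hψ, hL]
      rfl
    rw [pd, h1]
    have h2 : mfderiv (𝓡∂ 2) 𝓘(ℝ, F) f (ψ y) (L (ee i)) =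
        mfderiv (𝓡∂ 2) 𝓘(ℝ, F) f (ψ y) ((L (ee i)) 0 • ee 0 + (L (ee i)) 1 • ee 1) :=
      congrArg _ (vec2 (L (ee i)))
    rw [h2]
    unfold dd
    erw [map_add, map_smul, map_smul]
    rfl
  refine ⟨(L (ee 0)) 0, (L (ee 0)) 1, (L (ee 1)) 0, (L (ee 1)) 1, ?_, ?_⟩
  · intro h0
    apply hP.imm y hy
    rw [key V3 D.x D.cmc.x_smooth 0, key V3 D.x D.cmc.x_smooth 1, cross_comb, h0, zero_smul]
  · intro F _ _ f hf
    refine ⟨?_, key F f hf 0, key F f hf 1⟩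
    rw [← contMDiffOn_iff_contDiffOn]
    have hf' : ContMDiff (𝓡∂ 2) 𝓘(ℝ, F) ∞ f := hf
    exact hf'.comp_contMDiffOn hP.smooth

end Pool.Agent.H11.CM
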