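import Pool.Agent.H88.CM.Targets

/-!
# Uniform bounds of the derivatives near a compact set
-/

set_option autoImplicit false

open Set Function Topology Metric Filter
open scoped Manifold

namespace Pool.Agent.H11.CM

open Pool.Agent.H88.CL Pool.Agent.H88.CM

theorem pf_TRE : T_TRE := by
  intro d O K F hO hK hKO hF
  obtain ⟨e, he, hsub⟩ := hK.exists_cthickening_subset_open hO hKO
  have hc : IsCompact (cthickening e K) := hK.cthickening
  have h1 : ContDiffOn ℝ 1 (fderiv ℝ F) O := hF.fderiv_of_isOpen hO (by norm_num)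
  have h2 : ContinuousOn (fderiv ℝ F) O := h1.continuousOn
  have h3 : ContinuousOn (fderiv ℝ (fderiv ℝ F)) O := h1.continuousOn_fderiv_of_isOpen hO le_rfl
  obtain ⟨L1, hL1⟩ := hc.exists_bound_of_continuousOn (h2.mono hsub)
  obtain ⟨L2, hL2⟩ := hc.exists_bound_of_continuousOn (f := fderiv ℝ (fderiv ℝ F)) (h3.mono hsub)
  refine ⟨e / 2, max 1 (max L1 L2), by positivity, le_max_left _ _, fun c hcK => ?_⟩
  have hb : closedBall c (e / 2) ⊆ cthickening e K :=
    (closedBall_subset_closedBall (by linarith)).trans (closedBall_subset_cthickening hcK e)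
  refine ⟨hb.trans hsub, fun x hx => ?_, fun x hx y hy => ?_⟩
  · exact (hL1 x (hb hx)).trans ((le_max_left _ _).trans (le_max_right _ _))
  · refine Convex.norm_image_sub_le_of_norm_fderiv_le (𝕜 := ℝ) (s := closedBall c (e / 2))
      (fun z hz => ?_) (fun z hz => ?_) (convex_closedBall c (e / 2)) hy hx
    · exact (h1.contDiffAt (hO.mem_nhds (hsub (hb hz)))).differentiableAt (by simp)
    · exact (hL2 z (hb hz)).trans ((le_max_right _ _).trans (le_max_right _ _))

end Pool.Agent.H11.CM
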